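import Mathlib

/-!
A two-dimensional subtraction game with nonnegative difference vectors whose set of P-positions
is not semilinear.  The 17 difference vectors are `(0,s)` for `s ∈ S0` and `(1,s)` for `s ∈ S1`.
Writing a position as `(X, 46 T + r)`, the outcome depends only on `r` and the parities of
`C(T, X+1)` and `C(T, X)` (four layers compute one step of Pascal's rule modulo two).
-/

set_option autoImplicit false

namespace Pool.Agent.H10R3.DiffGame

def S0 : List ℕ := [2, 3, 5, 8, 12, 16, 18, 19, 20, 27, 28, 32, 37, 38, 41]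
def S1 : List ℕ := [2, 14]

def val (r : ℕ) (b1 b0 : Bool) : Bool :=
  if r = 0 ∨ r = 1 ∨ r = 7 ∨ r = 11 then true
  else if r = 22 then !b1
  else if r = 24 then b1 && b0
  else if r = 40 then b1 && !b0
  else if r = 36 then b0 && !b1
  else false

def bt (T j : ℕ) : Bool := decide (T.choose j % 2 = 1)

def pat (X W : ℕ) : Bool := val (W % 46) (bt (W / 46) (X + 1)) (bt (W / 46) X)

def pv (r s : ℕ) (b1 b0 c1 c0 : Bool) : Bool :=
  if s ≤ r then val (r - s) b1 b0 else val (r + 46 - s) c1 c0

lemma bt_succ (T j : ℕ) : bt (T + 1) (j + 1) = (bt T (j + 1) ^^ bt T j) := by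
  unfold bt
  rw [Nat.choose_succ_succ]
  rcases Nat.mod_two_eq_zero_or_one (T.choose j) with h1 | h1 <;>
  rcases Nat.mod_two_eq_zero_or_one (T.choose (j + 1)) with h2 | h2 <;>
  simp [Nat.add_mod, h1, h2]

lemma bt_zero_right (T : ℕ) : bt T 0 = true := by simp [bt]

lemma bt_zero_succ (j : ℕ) : bt 0 (j + 1) = false := by simp [bt]

lemma pat_succ (X T r s : ℕ) (hr : r < 46) (hs : s ≤ 46) (hs1 : 1 ≤ s) :
    pat X (46 * (T + 1) + r - s) =
      pv r s (bt (T + 1) (X + 1)) (bt (T + 1) X) (bt T (X + 1)) (bt T X) := by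
  unfold pat pv
  split_ifs with h
  · have e1 : (46 * (T + 1) + r - s) % 46 = r - s := by omega
    have e2 : (46 * (T + 1) + r - s) / 46 = T + 1 := by omega
    rw [e1, e2]
  · have e1 : (46 * (T + 1) + r - s) % 46 = r + 46 - s := by omega
    have e2 : (46 * (T + 1) + r - s) / 46 = T := by omega
    rw [e1, e2]

lemma pat_eq (X T r : ℕ) (hr : r < 46) :
    pat X (46 * T + r) = val r (bt T (X + 1)) (bt T X) := by
  unfold pat
  have e1 : (46 * T + r) % 46 = r := by omega
  have e2 : (46 * T + r) / 46 = T := by omega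
  rw [e1, e2]

set_option maxRecDepth 100000 in
lemma check11 : ∀ r < 46, ∀ p q s u : Bool, val r (p ^^ q) (q ^^ s) =
    ((S0.all fun t => !(pv r t (p ^^ q) (q ^^ s) p q)) &&
      (S1.all fun t => !(pv r t (q ^^ s) u q s))) := by
  decide +kernel

set_option maxRecDepth 100000 in
lemma check10 : ∀ r < 46, ∀ p : Bool, val r (p ^^ true) true =
    (S0.all fun t => !(pv r t (p ^^ true) true p true)) := by
  decide +kernel

set_option maxRecDepth 100000 in
lemma check01 : ∀ r < 46, ∀ u : Bool, val r false false =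
    ((S0.all fun t => !(decide (t ≤ r) && val (r - t) false false)) &&
      (S1.all fun t => !(decide (t ≤ r) && val (r - t) false u))) := by
  decide +kernel

set_option maxRecDepth 100000 in
lemma check00 : ∀ r < 46, val r false true =
    (S0.all fun t => !(decide (t ≤ r) && val (r - t) false true)) := by
  decide +kernel

lemma S0_bd : ∀ s ∈ S0, 1 ≤ s ∧ s ≤ 46 := by decide
lemma S1_bd : ∀ s ∈ S1, 1 ≤ s ∧ s ≤ 46 := by decide

lemma pat_iff (X W : ℕ) : pat X W = true ↔
    (∀ s ∈ S0, s ≤ W → pat X (W - s) = false) ∧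
      (∀ s ∈ S1, 1 ≤ X → s ≤ W → pat (X - 1) (W - s) = false) := by
  obtain ⟨T, r, hr, rfl⟩ : ∃ T r, r < 46 ∧ W = 46 * T + r :=
    ⟨W / 46, W % 46, Nat.mod_lt _ (by norm_num), by omega⟩
  rw [pat_eq X T r hr]
  cases T with
  | zero =>
    cases X with
    | zero =>
      rw [bt_zero_succ, bt_zero_right, check00 r hr, List.all_eq_true]
      constructor
      · intro h
        refine ⟨fun s hs hle => ?_, fun s _ h1 => by omega⟩
        have h1 := h s hs
        have h2 : s ≤ r := by omega
        have h3 := pat_eq 0 0 (r - s) (by omega)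
        rw [bt_zero_succ, bt_zero_right] at h3
        have h4 : 46 * 0 + r - s = 46 * 0 + (r - s) := by omega
        rw [h4, h3]
        simpa [h2] using h1
      · rintro ⟨h, -⟩ s hs
        by_cases h2 : s ≤ r
        · have h1 := h s hs (by omega)
          have h3 := pat_eq 0 0 (r - s) (by omega)
          rw [bt_zero_succ, bt_zero_right] at h3
          have h4 : 46 * 0 + r - s = 46 * 0 + (r - s) := by omega
          rw [h4, h3] at h1
          simp [h1]
        · simp [h2]
    | succ X =>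
      rw [bt_zero_succ, bt_zero_succ, check01 r hr (bt 0 X), Bool.and_eq_true, List.all_eq_true,
        List.all_eq_true]
      have key : ∀ (Y : ℕ) (s : ℕ) (hs : s ≤ r), pat Y (46 * 0 + r - s) =
          val (r - s) (bt 0 (Y + 1)) (bt 0 Y) := by
        intro Y s hs
        have h4 : 46 * 0 + r - s = 46 * 0 + (r - s) := by omega
        rw [h4, pat_eq Y 0 (r - s) (by omega)]
      constructor
      · rintro ⟨h, h'⟩
        refine ⟨fun s hs hle => ?_, fun s hs _ hle => ?_⟩
        · have h1 := h s hs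
          have h2 : s ≤ r := by omega
          rw [key _ _ h2, bt_zero_succ, bt_zero_succ]
          simpa [h2] using h1
        · have h1 := h' s hs
          have h2 : s ≤ r := by omega
          rw [key _ _ h2]
          have h5 : X + 1 - 1 = X := by omega
          rw [h5, bt_zero_succ]
          simpa [h2] using h1
      · rintro ⟨h, h'⟩
        refine ⟨fun s hs => ?_, fun s hs => ?_⟩
        · by_cases h2 : s ≤ r
          · have h1 := h s hs (by omega)
            rw [key _ _ h2, bt_zero_succ, bt_zero_succ] at h1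
            simp [h1]
          · simp [h2]
        · by_cases h2 : s ≤ r
          · have h1 := h' s hs (by omega) (by omega)
            have h5 : X + 1 - 1 = X := by omega
            rw [key _ _ h2, h5, bt_zero_succ] at h1
            simp [h1]
          · simp [h2]
  | succ T =>
    cases X with
    | zero =>
      have e1 : bt (T + 1) (0 + 1) = (bt T (0 + 1) ^^ true) := by
        rw [bt_succ, bt_zero_right]
      rw [e1, bt_zero_right, check10 r hr (bt T (0 + 1)), List.all_eq_true]
      constructor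
      · intro h
        refine ⟨fun s hs hle => ?_, fun s _ h1 => by omega⟩
        have h1 := h s hs
        rw [pat_succ 0 T r s hr (S0_bd s hs).2 (S0_bd s hs).1, e1, bt_zero_right, bt_zero_right]
        simpa using h1
      · rintro ⟨h, -⟩ s hs
        have h1 := h s hs (by have := (S0_bd s hs).2; omega)
        rw [pat_succ 0 T r s hr (S0_bd s hs).2 (S0_bd s hs).1, e1, bt_zero_right, bt_zero_right]
          at h1
        rw [h1]; rfl
    | succ X =>
      have e1 : bt (T + 1) (X + 1 + 1) = (bt T (X + 1 + 1) ^^ bt T (X + 1)) := bt_succ _ _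
      have e0 : bt (T + 1) (X + 1) = (bt T (X + 1) ^^ bt T X) := bt_succ _ _
      rw [e1, e0, check11 r hr (bt T (X + 1 + 1)) (bt T (X + 1)) (bt T X) (bt (T + 1) X),
        Bool.and_eq_true, List.all_eq_true, List.all_eq_true]
      have h5 : X + 1 - 1 = X := by omega
      constructor
      · rintro ⟨h, h'⟩
        refine ⟨fun s hs hle => ?_, fun s hs _ hle => ?_⟩
        · have h1 := h s hs
          rw [pat_succ _ T r s hr (S0_bd s hs).2 (S0_bd s hs).1, e1, e0]
          simpa using h1
        · have h1 := h' s hs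
          rw [h5, pat_succ _ T r s hr (S1_bd s hs).2 (S1_bd s hs).1, e0]
          simpa using h1
      · rintro ⟨h, h'⟩
        refine ⟨fun s hs => ?_, fun s hs => ?_⟩
        · have h1 := h s hs (by have := (S0_bd s hs).2; omega)
          rw [pat_succ _ T r s hr (S0_bd s hs).2 (S0_bd s hs).1, e1, e0] at h1
          simp [h1]
        · have h1 := h' s hs (by omega) (by have := (S1_bd s hs).2; omega)
          rw [h5, pat_succ _ T r s hr (S1_bd s hs).2 (S1_bd s hs).1, e0] at h1
          simp [h1]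

/-- parity of `C(2j-1, j)`: doubling `j` does not change it. -/
lemma f_double (j : ℕ) (hj : 1 ≤ j) :
    (2 * (2 * j) - 1).choose (2 * j) % 2 = (2 * j - 1).choose j % 2 := by
  have h := Choose.choose_modEq_choose_mod_mul_choose_div_nat (n := 2 * (2 * j) - 1) (k := 2 * j)
    (p := 2)
  have e1 : (2 * (2 * j) - 1) % 2 = 1 := by omega
  have e2 : (2 * j) % 2 = 0 := by omega
  have e3 : (2 * (2 * j) - 1) / 2 = 2 * j - 1 := by omega
  have e4 : (2 * j) / 2 = j := by omega
  rw [e1, e2, e3, e4] at h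
  simpa [Nat.ModEq] using h

lemma f_odd (i : ℕ) (hi : 1 ≤ i) :
    (2 * (2 * i + 1) - 1).choose (2 * i + 1) % 2 = 0 := by
  have h := Choose.choose_modEq_choose_mod_mul_choose_div_nat (n := 2 * (2 * i + 1) - 1)
    (k := 2 * i + 1) (p := 2)
  have e1 : (2 * (2 * i + 1) - 1) % 2 = 1 := by omega
  have e2 : (2 * i + 1) % 2 = 1 := by omega
  have e3 : (2 * (2 * i + 1) - 1) / 2 = 2 * i := by omega
  have e4 : (2 * i + 1) / 2 = i := by omega
  rw [e1, e2, e3, e4] at h
  have h2 : 2 ∣ (2 * i).choose i := by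
    have := Nat.two_dvd_centralBinom_of_one_le hi
    simpa [Nat.centralBinom] using this
  have h3 : (2 * i).choose i % 2 = 0 := by omega
  have h4 : (2 * (2 * i + 1) - 1).choose (2 * i + 1) % 2 =
      (Nat.choose 1 1 * (2 * i).choose i) % 2 := h
  rw [h4]; simpa using h3

lemma f_pow_mul (n q : ℕ) (hq : 1 ≤ q) :
    (2 * (2 ^ n * q) - 1).choose (2 ^ n * q) % 2 = (2 * q - 1).choose q % 2 := by
  induction n with
  | zero => simp
  | succ n ih =>
    have e : 2 ^ (n + 1) * q = 2 * (2 ^ n * q) := by ring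
    rw [e, f_double (2 ^ n * q) (Nat.mul_pos (by positivity) hq), ih]

lemma f_pow (n : ℕ) : (2 * 2 ^ n - 1).choose (2 ^ n) % 2 = 1 := by
  have := f_pow_mul n 1 le_rfl
  simpa using this

lemma f_bad (a a' : ℕ) (h : a < a') :
    (2 * (2 ^ (a' + 1) - 2 ^ a) - 1).choose (2 ^ (a' + 1) - 2 ^ a) % 2 = 0 := by
  obtain ⟨m, rfl⟩ : ∃ m, a' = a + 1 + m := ⟨a' - a - 1, by omega⟩
  have e : 2 ^ (a + 1 + m + 1) - 2 ^ a = 2 ^ a * (2 * (2 ^ (m + 1) - 1) + 1) := by
    have h1 : 2 ^ (a + 1 + m + 1) = 2 ^ a * (2 * 2 ^ (m + 1)) := by ring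
    have h2 : 1 ≤ 2 ^ (m + 1) := Nat.one_le_two_pow
    have h3 : 2 * (2 ^ (m + 1) - 1) + 1 = 2 * 2 ^ (m + 1) - 1 := by omega
    rw [h1, h3, Nat.mul_sub, mul_one]
  rw [e, f_pow_mul _ _ (by omega)]
  apply f_odd
  have : 2 ≤ 2 ^ (m + 1) := by
    calc 2 = 2 ^ 1 := by norm_num
      _ ≤ 2 ^ (m + 1) := Nat.pow_le_pow_right (by norm_num) (by omega)
  omega

/-- the special points -/
lemma pat_pow (a : ℕ) : pat (2 ^ a - 1) (46 * (2 * 2 ^ a - 1) + 24) = true := by
  have h1 : 1 ≤ 2 ^ a := Nat.one_le_two_pow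
  rw [pat_eq _ _ _ (by norm_num)]
  have e : 2 ^ a - 1 + 1 = 2 ^ a := by omega
  rw [e]
  have h2 := f_pow a
  have h3 : (2 * 2 ^ a - 1).choose (2 ^ a - 1) = (2 * 2 ^ a - 1).choose (2 ^ a) := by
    apply Nat.choose_symm_of_eq_add; omega
  simp [val, bt, h2, h3]

lemma pat_bad (a a' : ℕ) (h : a < a') :
    pat (2 ^ (a' + 1) - 2 ^ a - 1) (46 * (2 * (2 ^ (a' + 1) - 2 ^ a) - 1) + 24) = false := by
  have h1 : 2 ^ a < 2 ^ (a' + 1) := Nat.pow_lt_pow_right (by norm_num) (by omega)
  rw [pat_eq _ _ _ (by norm_num)]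
  have e : 2 ^ (a' + 1) - 2 ^ a - 1 + 1 = 2 ^ (a' + 1) - 2 ^ a := by omega
  rw [e]
  have h2 := f_bad a a' h
  simp [val, bt, h2]

end Pool.Agent.H10R3.DiffGame
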